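import Pool.Agent.TH178.HI.MultiFin

/-! Unirationality of the double covers of products of projective spaces branched along a divisor
of multidegree `(2, ..., 2)` which have one smooth rational point, over fields of characteristic
zero. -/

set_option autoImplicit false

namespace Pool.Agent.Results.MP_d5a5f5_ag.MultiDoubleCovers

open AlgebraicGeometry CategoryTheory W560.HP Pool.Agent.TH178.HI Pool.Agent.TH178.MZ

theorem result (k : Type) [Field k] [CharZero k] :
    (∀ (r : ℕ) (a : Fin r → ℕ) (F : MvPolynomial (Idx a) k), IsMultiQuadratic F →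
      HasSmoothMultiPoint F → ∀ (X : Scheme.{0}) (p : X ⟶ Spec (CommRingCat.of k)) [IsIntegral X],
        BirationalToMultiCover k F X p → UnirationalScheme k X p) ∧
    (∀ (n : ℕ) (f : MvPolynomial (Fin n) k), (∀ i, MvPolynomial.degreeOf i f ≤ 2) →
      HasSmoothPoint f → ∀ (X : Scheme.{0}) (p : X ⟶ Spec (CommRingCat.of k)) [IsIntegral X],
        BirationalToCover k f X p → UnirationalScheme k X p) :=
  ⟨fun _ _ F hF h X p _ hX => unirational_multi F hF h X p hX,
    fun _ f hf h X p _ hX => unirational_affine f hf h X p hX⟩

end Pool.Agent.Results.MP_d5a5f5_ag.MultiDoubleCovers
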